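import Mathlib
import Pool.Agent.Q192.HX.Fin

/-!
Exposed points of the unit ball of `H^∞_Φ`, `Φ` a finite set of bounded linear functionals on
`H^∞`.
-/

set_option autoImplicit false

open MeasureTheory
open scoped ENNReal

namespace Pool.Agent.Results.MP_4ac5ef_an.ExposedIffPositiveMeasure

open Pool.Agent.Q192.HX.St

/-- For every finite set `Φ` of bounded linear functionals on `H^∞`, a function `f ∈ H^∞_Φ` is an
exposed point of the unit ball of `H^∞_Φ` if and only if `‖f‖ = 1` and `|f| = 1` on a set of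
positive measure. -/
theorem result (Φ : Set (StrongDual ℂ HSp)) (hΦ : Φ.Finite) (f : HPhi Φ) :
    Exposed f ↔ ‖f‖ = 1 ∧ 0 < m {ζ | ‖(f : HSp).fn ζ‖ = 1} :=
  Pool.Agent.Q192.HX.final Φ hΦ f

end Pool.Agent.Results.MP_4ac5ef_an.ExposedIffPositiveMeasure
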